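import Pool.Agent.N692.LR.Defs

/-!
# Project LR (helper692), LAP (helper216): `m + η u₀` is analytic and harmonic
-/

set_option autoImplicit false

namespace Pool.Agent.N216.LR

open Pool.Agent.N692.LR
open scoped Laplacian InnerProductSpace ContDiff
open Polynomial (C X)

lemma cd_coord (i : Fin 3) : ContDiff ℝ ω (fun x : E3 => x i) :=
  (EuclideanSpace.proj i : E3 →L[ℝ] ℝ).contDiff

lemma cd_u0 (m η : ℝ) : ContDiff ℝ ω (fun x : E3 => m + η * u0 x) := by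
  have h0 := cd_coord 0
  have h1 := cd_coord 1
  have h2 := cd_coord 2
  unfold u0 pA pB
  fun_prop

/-- second derivatives along lines -/
lemma second {F : E3 → ℝ} (hF : ContDiff ℝ ω F) (x v : E3) (p : Polynomial ℝ) (a : ℝ)
    (h : ∀ t : ℝ, F (x + t • v) = p.eval (a + t)) :
    iteratedFDeriv ℝ 2 F x ![v, v] = p.derivative.derivative.eval a := by
  have hd : Differentiable ℝ F := hF.differentiable (by simp)
  have hd2 : Differentiable ℝ (fderiv ℝ F) :=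
    (hF.fderiv_right (m := ω) (by simp)).differentiable (by simp)
  have hline : ∀ t : ℝ, HasDerivAt (fun t : ℝ => x + t • v) v t := by
    intro t
    simpa using ((hasDerivAt_id t).smul_const v).const_add x
  have hp : ∀ (q : Polynomial ℝ) (t : ℝ),
      HasDerivAt (fun t => q.eval (a + t)) (q.derivative.eval (a + t)) t := fun q t =>
    HasDerivAt.comp_const_add a t (q.hasDerivAt (a + t))
  have h1 : ∀ t : ℝ, fderiv ℝ F (x + t • v) v = p.derivative.eval (a + t) := by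
    intro t
    have e1 := (hd (x + t • v)).hasFDerivAt.comp_hasDerivAt t (hline t)
    have e2 : HasDerivAt (F ∘ fun t : ℝ => x + t • v) (p.derivative.eval (a + t)) t := by
      have e3 : (F ∘ fun t : ℝ => x + t • v) = fun t => p.eval (a + t) := by
        funext s
        exact h s
      rw [e3]
      exact hp p t
    exact e1.unique e2
  rw [iteratedFDeriv_two_apply]
  show fderiv ℝ (fderiv ℝ F) x v v = _
  have e1 : HasDerivAt (fun t : ℝ => fderiv ℝ F (x + t • v)) (fderiv ℝ (fderiv ℝ F) x v) 0 := by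
    have e2 := (hd2 (x + (0 : ℝ) • v)).hasFDerivAt.comp_hasDerivAt (0 : ℝ) (hline 0)
    rw [zero_smul, add_zero] at e2
    exact e2
  have e2 : HasDerivAt (fun t : ℝ => fderiv ℝ F (x + t • v) v) (fderiv ℝ (fderiv ℝ F) x v v) 0 := by
    have e3 := e1.clm_apply (hasDerivAt_const (0 : ℝ) v)
    simpa using e3
  have e3 : (fun t : ℝ => fderiv ℝ F (x + t • v) v) = fun t => p.derivative.eval (a + t) := by
    funext t
    exact h1 t
  rw [e3] at e2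
  have e4 := hp p.derivative 0
  rw [add_zero] at e4
  exact e2.unique e4

/-- a polynomial of degree five -/
noncomputable def P5 (c0 c1 c2 c3 c4 c5 : ℝ) : Polynomial ℝ :=
  C c0 + C c1 * X + C c2 * X ^ 2 + C c3 * X ^ 3 + C c4 * X ^ 4 + C c5 * X ^ 5

lemma P5_eval (c0 c1 c2 c3 c4 c5 t : ℝ) : (P5 c0 c1 c2 c3 c4 c5).eval t =
    c0 + c1 * t + c2 * t ^ 2 + c3 * t ^ 3 + c4 * t ^ 4 + c5 * t ^ 5 := by
  simp [P5]

lemma P5_der (c0 c1 c2 c3 c4 c5 t : ℝ) :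
    (P5 c0 c1 c2 c3 c4 c5).derivative.derivative.eval t =
    2 * c2 + 6 * c3 * t + 12 * c4 * t ^ 2 + 20 * c5 * t ^ 3 := by
  simp [P5]
  ring

theorem t_LAP : Pool.Agent.N692.LR.S_LAP := by
  intro m η
  refine ⟨cd_u0 m η, fun x => ?_⟩
  rw [InnerProductSpace.laplacian_eq_iteratedFDeriv_orthonormalBasis _
    (EuclideanSpace.basisFun (Fin 3) ℝ)]
  beta_reduce
  rw [Fin.sum_univ_three]
  have s0 := second (cd_u0 m η) x (EuclideanSpace.basisFun (Fin 3) ℝ 0)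
    (P5 (m + η * (-(x 1) * x 2 * (1 - 6 * x 2 ^ 2 + x 2 ^ 4) - 9 / 2 * x 1 ^ 3 * x 2 +
        5 / 2 * x 1 ^ 3 * x 2 ^ 3 - 5 / 8 * x 1 ^ 5 * x 2))
      (η * (4 * x 2 ^ 2 - 4 * x 2 ^ 4 - x 1 ^ 2 + 6 * x 1 ^ 2 * x 2 ^ 2 - x 1 ^ 4 / 2))
      (η * (-(9 / 2) * x 1 * x 2 + 5 / 2 * x 1 * x 2 ^ 3 - 5 / 4 * x 1 ^ 3 * x 2))
      (η * (-1 + 6 * x 2 ^ 2 - x 1 ^ 2)) (η * (-(5 / 8) * x 1 * x 2)) (η * (-(1 / 2)))) (x 0)
    (by
      intro t
      rw [P5_eval]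
      simp [u0, pA, pB]
      ring)
  have s1 := second (cd_u0 m η) x (EuclideanSpace.basisFun (Fin 3) ℝ 1)
    (P5 (m + η * (x 0 * (4 * x 2 ^ 2 - 4 * x 2 ^ 4) - x 0 ^ 3 + 6 * x 0 ^ 3 * x 2 ^ 2 - x 0 ^ 5 / 2))
      (η * (-(x 2) * (1 - 6 * x 2 ^ 2 + x 2 ^ 4) - 9 / 2 * x 0 ^ 2 * x 2 +
        5 / 2 * x 0 ^ 2 * x 2 ^ 3 - 5 / 8 * x 0 ^ 4 * x 2))
      (η * (-(x 0) + 6 * x 0 * x 2 ^ 2 - x 0 ^ 3))
      (η * (-(9 / 2) * x 2 + 5 / 2 * x 2 ^ 3 - 5 / 4 * x 0 ^ 2 * x 2))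
      (η * (-(x 0) / 2)) (η * (-(5 / 8) * x 2))) (x 1)
    (by
      intro t
      rw [P5_eval]
      simp [u0, pA, pB]
      ring)
  have s2 := second (cd_u0 m η) x (EuclideanSpace.basisFun (Fin 3) ℝ 2)
    (P5 (m + η * (-(x 0) * (x 0 ^ 2 + x 1 ^ 2) - x 0 * (x 0 ^ 2 + x 1 ^ 2) ^ 2 / 2))
      (η * (-(x 1) - 9 / 2 * x 1 * (x 0 ^ 2 + x 1 ^ 2) - 5 / 8 * x 1 * (x 0 ^ 2 + x 1 ^ 2) ^ 2))
      (η * (4 * x 0 + 6 * x 0 * (x 0 ^ 2 + x 1 ^ 2)))
      (η * (6 * x 1 + 5 / 2 * x 1 * (x 0 ^ 2 + x 1 ^ 2)))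
      (η * (-4 * x 0)) (η * (-(x 1)))) (x 2)
    (by
      intro t
      rw [P5_eval]
      simp [u0, pA, pB]
      ring)
  rw [P5_der] at s0 s1 s2
  rw [s0, s1, s2]
  ring

end Pool.Agent.N216.LR
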